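import Mathlib
import Pool.Agent.H353R4.M11

/-!
# Real zeros of quadratic `L(s,χ)` and sign changes of logarithmic Riesz means

For a real character `χ ≠ 1` put `R_k(x) = ∑_{n ≤ x} χ(n) (log (x/n))^k`.  The number of zeros of
`L(s,χ)` in `(0,1)`, counted with multiplicity, is a lower bound for the number of sign changes of
every `R_k` on `(1,∞)`, and for all large `k` it is exactly the number of zeros of `R_k` there.
-/

open Set Filter Topology H353.LM

namespace Pool.Agent.Results.MP_0016c7_nt.LogMeanZeros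

/-- `R χ k x = ∑_{1 ≤ n ≤ x} χ(n) (log (x/n))^k` -/
noncomputable def R {N : ℕ} (χ : DirichletCharacter ℂ N) (k : ℕ) (x : ℝ) : ℝ :=
  ∑ n ∈ Finset.Icc 1 ⌊x⌋₊, (χ n).re * (Real.log (x / n)) ^ k

theorem R_exp {N : ℕ} (χ : DirichletCharacter ℂ N) (k : ℕ) (t : ℝ) :
    R χ k (Real.exp t) = (k.factorial : ℝ) * qq (av χ) k t := by
  unfold R qq av
  rw [mul_div_cancel₀ _ (by exact_mod_cast (Nat.factorial_pos k).ne')]
  refine Finset.sum_congr rfl fun n hn => ?_
  have hn1 : 1 ≤ n := (Finset.mem_Icc.mp hn).1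
  have hn0 : (n:ℝ) ≠ 0 := by exact_mod_cast (by omega : n ≠ 0)
  rw [Real.log_div (Real.exp_pos t).ne' hn0, Real.log_exp]

theorem result {N : ℕ} [NeZero N] (χ : DirichletCharacter ℂ N) (h1 : χ ≠ 1) (h2 : χ ^ 2 = 1) :
    List.TFAE [∀ s : ℝ, 0 < s → s < 1 → 0 < (χ.LFunction (s : ℂ)).re,
      ∃ k : ℕ, ∀ x : ℝ, 1 < x → 0 ≤ R χ k x,
      ∃ K : ℕ, ∀ k ≥ K, ∀ x : ℝ, 1 < x → 0 < R χ k x] ∧
    ∃ (n : ℕ) (z : ℕ → ℝ) (Q : ℝ → ℝ), (∀ i < n, 0 < z i ∧ z i < 1) ∧
      ContinuousOn Q (Ioi 0) ∧ (∀ σ : ℝ, 0 < σ → 0 < Q σ) ∧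
      (∀ σ : ℝ, 0 < σ → χ.LFunction (σ : ℂ) = (((∏ i ∈ Finset.range n, (σ - z i)) * Q σ : ℝ) : ℂ)) ∧
      (∀ k : ℕ, ∃ x : ℕ → ℝ, 1 < x 0 ∧ (∀ i < n, x i < x (i + 1)) ∧
        ∀ i < n, R χ k (x i) * R χ k (x (i + 1)) < 0) ∧
      ∃ K : ℕ, ∀ k ≥ K, {x : ℝ | 1 < x ∧ R χ k x = 0}.Finite ∧ {x : ℝ | 1 < x ∧ R χ k x = 0}.ncard = n := by
  obtain ⟨n, z, G, ⟨hG, hz0, hfac⟩, hz1, hGpos, hchg, K, hK⟩ := main_chi χ h1 h2
  have hL : ∀ σ : ℝ, 0 < σ → χ.LFunction (σ : ℂ)
      = (((∏ i ∈ Finset.range n, (σ - z i)) * (σ * AA G 0 σ) : ℝ) : ℂ) := by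
    intro σ hσ
    rw [L_eq χ h1 h2 hσ, hfac σ hσ]
    congr 1; ring
  have hfk : ∀ k : ℕ, (0:ℝ) < (k.factorial : ℝ) := fun k => by exact_mod_cast Nat.factorial_pos k
  have hRl : ∀ (k : ℕ) (x : ℝ), 1 < x → R χ k x = (k.factorial : ℝ) * qq (av χ) k (Real.log x) := by
    intro k x hx
    rw [← R_exp, Real.exp_log (by linarith)]
  have hset : ∀ k : ℕ, {x : ℝ | 1 < x ∧ R χ k x = 0} = Real.exp '' {t | 0 < t ∧ qq (av χ) k t = 0} := by
    intro k
    ext x
    simp only [mem_setOf_eq, mem_image]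
    constructor
    · rintro ⟨hx, h0⟩
      refine ⟨Real.log x, ⟨Real.log_pos hx, ?_⟩, Real.exp_log (by linarith)⟩
      rw [hRl k x hx] at h0
      exact (mul_eq_zero.mp h0).resolve_left (hfk k).ne'
    · rintro ⟨t, ⟨ht, h0⟩, rfl⟩
      exact ⟨Real.one_lt_exp_iff.mpr ht, by rw [R_exp, h0, mul_zero]⟩
  refine ⟨?_, n, z, fun σ => σ * AA G 0 σ, fun i hi => ⟨hz0 i hi, hz1 i hi⟩,
    continuousOn_id.mul (AA_cont hG 0), fun σ hσ => mul_pos hσ (hGpos σ hσ), hL, ?_, K, ?_⟩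
  · -- positivity forces `n = 0`
    have hn0 : ∀ k : ℕ, (∀ x : ℝ, 1 < x → 0 ≤ R χ k x) → n = 0 := by
      intro k hk
      by_contra hn
      obtain ⟨e, t, he, hmono, ht0, hs⟩ := hchg k
      have hq : ∀ u : ℝ, 0 < u → 0 ≤ qq (av χ) k u := by
        intro u hu
        have := hk (Real.exp u) (Real.one_lt_exp_iff.mpr hu)
        rw [R_exp] at this
        exact nonneg_of_mul_nonneg_right this (hfk k)
      have h0 := hs 0 (Nat.zero_le _)
      have h1' := hs 1 (by omega)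
      have a0 := hq (t 0) ht0
      have a1 := hq (t 1) (ht0.trans (hmono 0 (by omega)))
      rcases he with he | he <;> rw [he] at h0 h1' <;> norm_num at h0 h1' <;> linarith
    have hLpos : n = 0 → ∀ s : ℝ, 0 < s → s < 1 → 0 < (χ.LFunction (s : ℂ)).re := by
      intro hn s hs _
      rw [hL s hs, hn]
      simp only [Finset.range_zero, Finset.prod_empty, one_mul, Complex.ofReal_re]
      exact mul_pos hs (hGpos s hs)
    tfae_have 1 → 3 := by
      intro h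
      have hn : n = 0 := by
        by_contra hn
        have h3 := h (z 0) (hz0 0 (by omega)) (hz1 0 (by omega))
        rw [hL _ (hz0 0 (by omega)), Finset.prod_eq_zero (Finset.mem_range.mpr (by omega : 0 < n)) (sub_self _)] at h3
        simp at h3
      refine ⟨max K 1, fun k hk x hx => ?_⟩
      obtain ⟨hfin, hcard⟩ := hK k (le_trans (le_max_left _ _) hk)
      rw [hn, Set.ncard_eq_zero hfin] at hcard
      have hk1 : 1 ≤ k := le_trans (le_max_right _ _) hk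
      have hk1' : (1:ℝ) ≤ k := by exact_mod_cast hk1
      rw [hRl k x hx]
      refine mul_pos (hfk k) ?_
      have hlx : 0 < Real.log x := Real.log_pos hx
      by_contra hneg
      have hneg' := not_lt.mp hneg
      set u : ℝ := min (Real.log x) ((k:ℝ) / 2) with hu
      have hu0 : 0 < u := lt_min hlx (by linarith)
      have hqu := qq_pos (av χ) (av_one χ) (av_abs χ h2) k hu0 (min_le_right _ _)
      have hcont : ContinuousOn (qq (av χ) k) (Icc u (Real.log x)) := (qq_cont _ k hk1).continuousOn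
      obtain ⟨v, hv, hv0⟩ := intermediate_value_Icc' (min_le_left _ _) hcont ⟨hneg', hqu.le⟩
      have : v ∈ ({t | 0 < t ∧ qq (av χ) k t = 0} : Set ℝ) := ⟨lt_of_lt_of_le hu0 hv.1, hv0⟩
      rw [hcard] at this
      exact this
    tfae_have 3 → 2 := by
      rintro ⟨K', hK'⟩
      exact ⟨K', fun x hx => (hK' K' le_rfl x hx).le⟩
    tfae_have 2 → 1 := by
      rintro ⟨k, hk⟩
      exact hLpos (hn0 k hk)
    tfae_finish
  · intro k
    obtain ⟨e, t, he, hmono, ht0, hs⟩ := hchg k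
    refine ⟨fun i => Real.exp (t i), Real.one_lt_exp_iff.mpr ht0, fun i hi => Real.exp_lt_exp.mpr (hmono i hi), ?_⟩
    intro i hi
    simp only [R_exp]
    have ha := hs i hi.le
    have hb := hs (i + 1) hi
    have he2 : e * e = 1 := by rcases he with h | h <;> rw [h] <;> norm_num
    have hp : ((-1:ℝ) ^ i) * ((-1:ℝ) ^ i) = 1 := by
      rw [← mul_pow]; norm_num
    have hc := mul_pos ha hb
    have : e * (-1) ^ i * qq (av χ) k (t i) * (e * (-1) ^ (i + 1) * qq (av χ) k (t (i + 1)))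
        = -((e * e) * ((-1:ℝ) ^ i * (-1:ℝ) ^ i) * (qq (av χ) k (t i) * qq (av χ) k (t (i + 1)))) := by
      rw [pow_succ]; ring
    rw [this, he2, hp] at hc
    have hq : qq (av χ) k (t i) * qq (av χ) k (t (i + 1)) < 0 := by linarith
    have hf := hfk k
    have : (k.factorial : ℝ) * qq (av χ) k (t i) * ((k.factorial : ℝ) * qq (av χ) k (t (i + 1)))
        = (k.factorial : ℝ) * (k.factorial : ℝ) * (qq (av χ) k (t i) * qq (av χ) k (t (i + 1))) := by ring
    rw [this]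
    exact mul_neg_of_pos_of_neg (mul_pos hf hf) hq
  · intro k hk
    obtain ⟨hfin, hcard⟩ := hK k hk
    rw [hset k]
    exact ⟨hfin.image _, by rw [Set.ncard_image_of_injective _ Real.exp_injective, hcard]⟩

end Pool.Agent.Results.MP_0016c7_nt.LogMeanZeros
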