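import Mathlib
import Pool.Agent.H423R2.RGL.FIN
import Pool.Agent.H423R2.RGL.CGF
import Pool.Agent.H423R2.RGL.DEN
import Pool.Agent.H423R2.RGL.FI4G
import Pool.Agent.H423R2.RGL.FGF
import Pool.Agent.H423R2.RGL.GRW
import Pool.Agent.H423R2.RGL.ALQ
import Pool.Agent.H423R2.RGL.OldN

set_option autoImplicit false

/-!
# At least 86.4 percent of all quadratic characters have no real zero in `(0,1)`
-/

namespace Pool.Agent.Results.MP_0016c7_nt.MostQuadraticCharacters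

/-- The pairs `(N, χ)` with `1 ≤ N ≤ X` and `χ` a nontrivial quadratic Dirichlet character
modulo `N` (not necessarily primitive). -/
def Quadratic (X : ℕ) : Set (Σ N : ℕ, DirichletCharacter ℂ N) :=
  {p | p.1 ≠ 0 ∧ p.1 ≤ X ∧ p.2 ^ 2 = 1 ∧ p.2 ≠ 1}

/-- Those with `χ` primitive. -/
def QuadraticPrimitive (X : ℕ) : Set (Σ N : ℕ, DirichletCharacter ℂ N) :=
  {p | p ∈ Quadratic X ∧ p.2.IsPrimitive}

/-- `L(s,χ)` is real and positive for every real `s` with `0 < s < 1`. -/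
def Positive (p : Σ N : ℕ, DirichletCharacter ℂ N) : Prop :=
  ∃ _ : NeZero p.1, ∀ s : ℝ, 0 < s → s < 1 →
    (DirichletCharacter.LFunction p.2 (s : ℂ)).im = 0 ∧
    0 < (DirichletCharacter.LFunction p.2 (s : ℂ)).re

open Pool.Agent.H306R2.RZ Pool.Agent.H306R2.RG

/-- **Theorem.** For all large `X`, at least 86.4 percent of all nontrivial quadratic Dirichlet
characters `χ` modulo `N`, `N ≤ X`, satisfy `L(s,χ) > 0` for all `0 < s < 1`; the same holds for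
the primitive ones. -/
theorem result : (∀ X : ℕ, (Quadratic X).Finite) ∧
    (∃ X0 : ℕ, ∀ X : ℕ, X0 ≤ X →
      (864 / 1000 : ℝ) * ((Quadratic X).ncard : ℝ) ≤
        ((Quadratic X ∩ {p | Positive p}).ncard : ℝ)) ∧
    (∃ X0 : ℕ, ∀ X : ℕ, X0 ≤ X →
      (864 / 1000 : ℝ) * ((QuadraticPrimitive X).ncard : ℝ) ≤
        ((QuadraticPrimitive X ∩ {p | Positive p}).ncard : ℝ)) := by
  have hAdm : ∃ δ θ : ℝ, 0 < δ ∧ δ < 1 / 8 ∧ (499 / 1000 : ℝ) < θ ∧ Adm2 (1 / 2 + 3 * δ) θ := by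
    refine ⟨1 / 100000, 4995 / 10000, by norm_num, by norm_num, by norm_num, ?_⟩
    constructor <;> norm_num
  obtain ⟨N, hN⟩ := LnkC.FIN LnkC.CGF (8645 / 10000) (by norm_num) (fun φ hφ => by
    obtain ⟨N, hN⟩ := LnkB.FI4G φ (LnkA.FGF φ hφ) (LnkC.CGF φ hφ) (LnkC.DEN φ hφ)
      (499 / 1000) (27 / 200) (by norm_num) hAdm
      (Pool.Agent.H423R2.RGL.OldN.NUM (499 / 1000) (27 / 200) (Or.inr (Or.inr ⟨rfl, rfl⟩)))
      (1355 / 10000) (by norm_num)
    refine ⟨N, fun X hX => ?_⟩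
    have h := hN X hX
    have e : (1 - 1355 / 10000 : ℝ) = 8645 / 10000 := by norm_num
    rwa [e] at h)
  obtain ⟨h0, c, N', hc, hN'⟩ := LnkD.GRW LnkC.CGF
    (LnkC.DEN (F8 1) ⟨1, Or.inl rfl, Or.inl rfl⟩)
  have hset : ∀ X : ℕ, QuadraticPrimitive X = LnkC.RPC ∩ {p | p.1 ≤ X} := by
    intro X
    ext p
    simp only [QuadraticPrimitive, Quadratic, LnkC.RPC, Set.mem_inter_iff, Set.mem_ofPred_eq]
    tauto
  have hset' : ∀ X : ℕ, Quadratic X = LnkD.QC ∩ {p | p.1 ≤ X} := by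
    intro X
    ext p
    simp only [Quadratic, LnkD.QC, Set.mem_inter_iff, Set.mem_ofPred_eq]
    tauto
  obtain ⟨hf, N2, hN2⟩ := LnkD.ALQ (8645 / 10000) (864 / 1000) c (by norm_num) (by norm_num)
    (by norm_num) hc h0 ⟨max N N', fun X hX => ⟨hN' X ((le_max_right _ _).trans hX),
      (hN X ((le_max_left _ _).trans hX)).2⟩⟩
  refine ⟨fun X => ?_, ⟨N2, fun X hX => ?_⟩, ⟨N, fun X hX => ?_⟩⟩
  · rw [hset']; exact hf X
  · have h := hN2 X hX
    rw [← hset'] at h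
    exact h
  · have h := (hN X hX).2
    rw [← hset] at h
    refine le_trans ?_ h
    have h2 : (0 : ℝ) ≤ ((QuadraticPrimitive X).ncard : ℝ) := Nat.cast_nonneg _
    nlinarith

end Pool.Agent.Results.MP_0016c7_nt.MostQuadraticCharacters
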