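import Mathlib
import Pool.Agent.H353R5.B8

/-!
# Smooth cutoffs for primes in residue classes and the zeros of the `L(s,χ)` modulo `q`

At every scale `A > 1` and for every `θ > 1/2` one smooth cutoff counts the primes in all residue classes
coprime to `q` with error `O(x^θ)`.  The Riemann hypothesis for all `L(s,χ)` modulo `q` holds exactly when the
cutoffs can be nondecreasing at every scale, and no `L(s,χ)` has a real zero in `(1/2,1)` exactly when they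
can be nondecreasing at some scale; the class of `1` suffices for both.
-/

open scoped ContDiff

namespace Pool.Agent.Results.MP_0016c7_nt.PrimesModQ

/-- `W` is a smooth function passing from `0` at `1` to `1` at `A` -/
def Cut (A : ℝ) (W : ℝ → ℝ) : Prop :=
  ContDiff ℝ ∞ W ∧ (∀ y ≤ 1, W y = 0) ∧ ∀ y, A ≤ y → W y = 1

/-- the primes congruent to `a` modulo `q`, smoothed by `W`, are counted with error `O(x^θ)` -/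
def Good {q : ℕ} (a : ZMod q) (θ : ℝ) (W : ℝ → ℝ) : Prop :=
  ∃ C : ℝ, ∀ x : ℝ, 1 ≤ x →
    |∑ p ∈ (Finset.Icc 1 ⌊x⌋₊).filter (fun p : ℕ => p.Prime ∧ (p : ZMod q) = a), Real.log p * W (x / p) -
      (q.totient : ℝ)⁻¹ * ∑ n ∈ Finset.Icc 1 ⌊x⌋₊, W (x / n)| ≤ C * x ^ θ

/-- `W'` changes sign at most `k` times -/
def Turns (k : ℕ) (W : ℝ → ℝ) : Prop :=
  ∀ y : ℕ → ℝ, (∀ i ≤ k, y i < y (i + 1)) → ∃ i ≤ k, 0 ≤ deriv W (y i) * deriv W (y (i + 1))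

theorem result (q : ℕ) [NeZero q] :
    (∀ θ A : ℝ, 1 / 2 < θ → θ < 1 → 1 < A → ∃ W, Cut A W ∧ ∀ a : ZMod q, IsUnit a → Good a θ W) ∧
    (∀ (θ A : ℝ) (W : ℝ → ℝ) (k : ℕ), 1 / 2 < θ → θ < 1 → 1 < A → Cut A W → Turns k W →
      Good (1 : ZMod q) θ W → ∀ S : Finset ℂ, (∀ ρ ∈ S, θ < ρ.re ∧ Real.log A * |ρ.im| < Real.pi ∧ ρ ≠ 1 ∧
        ∃ χ : DirichletCharacter ℂ q, χ.LFunction ρ = 0) → S.card ≤ k) ∧
    (∀ θ₀ : ℝ, 1 / 2 ≤ θ₀ →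
      List.TFAE [∀ (χ : DirichletCharacter ℂ q) (s : ℂ), θ₀ < s.re → s ≠ 1 → χ.LFunction s ≠ 0,
        ∀ θ A : ℝ, θ₀ < θ → θ < 1 → 1 < A → ∃ W, Cut A W ∧ Monotone W ∧ Good (1 : ZMod q) θ W,
        ∀ θ A : ℝ, θ₀ < θ → θ < 1 → 1 < A → ∃ W, Cut A W ∧ Monotone W ∧
          ∀ a : ZMod q, IsUnit a → Good a θ W]) ∧
    (∀ θ₀ : ℝ, 1 / 2 ≤ θ₀ →
      List.TFAE [∀ (χ : DirichletCharacter ℂ q) (s : ℝ), θ₀ < s → s < 1 → χ.LFunction (s : ℂ) ≠ 0,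
        ∀ θ : ℝ, θ₀ < θ → θ < 1 → ∃ A : ℝ, 1 < A ∧ ∃ W, Cut A W ∧ Monotone W ∧ Good (1 : ZMod q) θ W,
        ∀ θ : ℝ, θ₀ < θ → θ < 1 → ∃ A : ℝ, 1 < A ∧ ∃ W, Cut A W ∧ Monotone W ∧
          ∀ a : ZMod q, IsUnit a → Good a θ W]) ∧
    ((∃ θ₀ : ℝ, θ₀ < 1 ∧ ∀ (χ : DirichletCharacter ℂ q) (s : ℂ), θ₀ < s.re → s ≠ 1 → χ.LFunction s ≠ 0) ↔
      ∃ θ : ℝ, 1 / 2 < θ ∧ θ < 1 ∧ ∃ k : ℕ, ∀ A : ℝ, 1 < A →
        ∃ W, Cut A W ∧ Turns k W ∧ Good (1 : ZMod q) θ W) :=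
  ⟨H353.D.main_signed, fun θ A _ k h1 h2 hA hW hk hb S hS => H353.D.main_count θ A h1 h2 hA k hW hk hb S hS,
    H353.D.main_free, H353.D.main_real, H353.D.main_quasi⟩

end Pool.Agent.Results.MP_0016c7_nt.PrimesModQ
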