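import Mathlib
import Pool.Agent.H353R5.C8

/-!
# Zeros of quadratic `L(s,χ)` and turning points of smooth cutoffs

For a real character `χ ≠ 1` consider smooth cutoffs `W`, passing from `0` at `1` to `1` at `A`, for which
`∑_{n ≤ x} χ(n) μ(n) W(x/n) = O(x^θ)`.  They exist for all `θ > 1/2` and `A > 1`.  The number of zeros of
`L(s,χ)` on the real segment `(θ₀,1)`, with multiplicity, is the least `k` such that for every `θ > θ₀` some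
such cutoff turns at most `k` times; the number of all zeros with real part `> θ₀` is the least `k` such that
this happens at every scale `A > 1`.
-/

open scoped ContDiff

namespace Pool.Agent.Results.MP_0016c7_nt.TurningPoints

/-- `W` is a smooth function passing from `0` at `1` to `1` at `A`, and the sum of `χ(n)μ(n)` smoothed by
`W` is `O(x^θ)`. -/
def Cutoff {N : ℕ} (χ : DirichletCharacter ℂ N) (θ A : ℝ) (W : ℝ → ℝ) : Prop :=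
  ContDiff ℝ ∞ W ∧ (∀ y ≤ 1, W y = 0) ∧ (∀ y, A ≤ y → W y = 1) ∧
    ∃ C : ℝ, ∀ x : ℝ, 1 ≤ x →
      |∑ n ∈ Finset.Icc 1 ⌊x⌋₊, (χ n).re * (ArithmeticFunction.moebius n : ℝ) * W (x / n)| ≤ C * x ^ θ

/-- `W'` changes sign at most `k` times -/
def Turns (k : ℕ) (W : ℝ → ℝ) : Prop :=
  ∀ y : ℕ → ℝ, (∀ i ≤ k, y i < y (i + 1)) → ∃ i ≤ k, 0 ≤ deriv W (y i) * deriv W (y (i + 1))

/-- `L(s,χ)` has at most `k` zeros in `D`, counted with multiplicity -/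
def AtMost {N : ℕ} [NeZero N] (χ : DirichletCharacter ℂ N) (D : Set ℂ) (k : ℕ) : Prop :=
  ∀ S : Finset ℂ, (∀ ρ ∈ S, ρ ∈ D ∧ χ.LFunction ρ = 0) → ∑ ρ ∈ S, analyticOrderNatAt χ.LFunction ρ ≤ k

theorem result {N : ℕ} [NeZero N] (χ : DirichletCharacter ℂ N) (h1 : χ ≠ 1) (h2 : χ ^ 2 = 1) :
    (∀ θ A : ℝ, 1 / 2 < θ → θ < 1 → 1 < A → ∃ W, Cutoff χ θ A W) ∧
    (∀ (θ A : ℝ) (W : ℝ → ℝ) (k : ℕ), 1 / 2 < θ → θ < 1 → 1 < A → Cutoff χ θ A W → Turns k W →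
      AtMost χ {ρ | θ < ρ.re ∧ Real.log A * |ρ.im| < Real.pi} k) ∧
    (∀ (θ₀ : ℝ), 1 / 2 ≤ θ₀ → θ₀ < 1 →
      ((∀ s : ℝ, θ₀ < s → s < 1 → 0 < (χ.LFunction (s : ℂ)).re) ↔
        ∀ θ : ℝ, θ₀ < θ → θ < 1 → ∃ A, 1 < A ∧ ∃ W, Cutoff χ θ A W ∧ Monotone W)) ∧
    (∀ (θ₀ : ℝ) (k : ℕ), 1 / 2 ≤ θ₀ → θ₀ < 1 →
      (AtMost χ {ρ | θ₀ < ρ.re ∧ ρ.im = 0} k ↔
        ∀ θ : ℝ, θ₀ < θ → θ < 1 → ∃ A, 1 < A ∧ ∃ W, Cutoff χ θ A W ∧ Turns k W)) ∧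
    ∀ (θ₀ : ℝ) (k : ℕ), 1 / 2 ≤ θ₀ → θ₀ < 1 →
      (AtMost χ {ρ | θ₀ < ρ.re} k ↔
        ∀ θ A : ℝ, θ₀ < θ → θ < 1 → 1 < A → ∃ W, Cutoff χ θ A W ∧ Turns k W) := by
  have hΦ := H353.D.LT_real χ h1 h2
  have ha := H353.D.af_mu χ h2
  have hm : ∀ ρ : ℂ, χ.LFunction ρ = 0 → 1 / 2 < ρ.re → analyticOrderAt (fun _ : ℂ => (1:ℂ)) ρ = 0 :=
    fun ρ _ _ => H353.D.order_one ρ
  refine ⟨fun θ A a b c => ?_, fun θ A W k a b c hW hk S hS => ?_, fun θ₀ a b => ?_, fun θ₀ k a b => ?_,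
    fun θ₀ k a b => ?_⟩
  · obtain ⟨W, ⟨w1, w2, w3⟩, w4⟩ := H353.D.W_signed hΦ A θ c a b
    exact ⟨W, w1, w2, w3, w4 _ _ ha⟩
  · obtain ⟨w1, w2, w3, w4⟩ := hW
    refine H353.D.W_count hΦ ha c (by linarith) b ⟨w1, w2, w3⟩ hk w4 S (H353.D.mu χ.LFunction) hΦ.mu_conj
      fun ρ hρ => ⟨(hS ρ hρ).1.1, (hS ρ hρ).1.2, ?_⟩
    rw [H353.D.order_one, add_zero, hΦ.mu_cast]
  · rw [H353.D.mono_real χ h1 h2 θ₀ a]
    refine forall_congr' fun θ => forall_congr' fun h3 => forall_congr' fun h4 => exists_congr fun A =>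
      and_congr_right fun hA => exists_congr fun W => ?_
    constructor
    · rintro ⟨⟨w1, w2, w3⟩, w5, w4⟩
      exact ⟨⟨w1, w2, w3, w4⟩, w5⟩
    · rintro ⟨⟨w1, w2, w3, w4⟩, w5⟩
      exact ⟨⟨w1, w2, w3⟩, w5, w4⟩
  · have e : AtMost χ {ρ | θ₀ < ρ.re ∧ ρ.im = 0} k ↔
        ∀ S : Finset ℂ, (∀ ρ ∈ S, χ.LFunction ρ = 0 ∧ θ₀ < ρ.re ∧ ρ.im = 0) →
          ∑ ρ ∈ S, H353.D.mu χ.LFunction ρ ≤ k :=
      forall_congr' fun S => imp_congr_left (forall_congr' fun ρ => forall_congr' fun _ => and_comm)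
    rw [e, H353.D.turns_real hΦ ha hm θ₀ a b k]
    refine forall_congr' fun θ => forall_congr' fun h3 => forall_congr' fun h4 => exists_congr fun A =>
      and_congr_right fun hA => exists_congr fun W => ?_
    constructor
    · rintro ⟨⟨w1, w2, w3⟩, w5, w4⟩
      exact ⟨⟨w1, w2, w3, w4⟩, w5⟩
    · rintro ⟨⟨w1, w2, w3, w4⟩, w5⟩
      exact ⟨⟨w1, w2, w3⟩, w5, w4⟩
  · have e : AtMost χ {ρ | θ₀ < ρ.re} k ↔
        ∀ S : Finset ℂ, (∀ ρ ∈ S, χ.LFunction ρ = 0 ∧ θ₀ < ρ.re) →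
          ∑ ρ ∈ S, H353.D.mu χ.LFunction ρ ≤ k :=
      forall_congr' fun S => imp_congr_left (forall_congr' fun ρ => forall_congr' fun _ => and_comm)
    rw [e, H353.D.turns_all hΦ ha hm θ₀ a b k]
    refine forall_congr' fun θ => forall_congr' fun A => forall_congr' fun h3 => forall_congr' fun h4 =>
      forall_congr' fun h5 => exists_congr fun W => ?_
    constructor
    · rintro ⟨⟨w1, w2, w3⟩, w5, w4⟩
      exact ⟨⟨w1, w2, w3, w4⟩, w5⟩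
    · rintro ⟨⟨w1, w2, w3, w4⟩, w5⟩
      exact ⟨⟨w1, w2, w3⟩, w5, w4⟩

end Pool.Agent.Results.MP_0016c7_nt.TurningPoints
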